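import Pool.Agent.T3H29.HK.Stm

/-! Common lemmas for COR, LLN and RED of project HK. -/

set_option autoImplicit false

namespace Pool.Agent.T3h64.HK

open MeasureTheory ProbabilityTheory Filter Topology Finset
open Pool.Agent.T3H29.HR Pool.Agent.T3H29.HK

variable {b : ℕ} [NeZero b]

lemma cf_norm (P : Measure (ℤ → Fin b)) [IsFiniteMeasure P] (π : ℕ → Fin b) (ξ : ℝ) : ‖cf P π ξ‖ ≤ 1 := by
  unfold cf
  refine (norm_integral_le_of_norm_le_const (C := 1) (Eventually.of_forall fun y => (norm_e _).le)).trans ?_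
  simp

lemma cf_meas (hb : 2 ≤ b) (P : Measure (ℤ → Fin b)) [IsFiniteMeasure P] (ξ : (ℕ → Fin b) → ℝ)
    (hξ : Measurable ξ) : Measurable (fun π => cf P π (ξ π)) := by
  have hf : StronglyMeasurable (fun q : (ℕ → Fin b) × (ℕ → Fin b) => e (ξ q.1 * val q.2)) :=
    (e_cont.measurable.comp ((hξ.comp measurable_fst).mul ((val_meas hb).comp measurable_snd))).stronglyMeasurable
  exact (hf.integral_kernel_prod_right' (κ := condDistrib (fut (b := b)) (past (b := b)) P)).measurable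

/-- the difference at the place `J` -/
noncomputable def DJ (P : Measure (ℤ → Fin b)) [IsFiniteMeasure P]
    (G : ℕ → (ℕ → Fin b) → ℂ) (ξ : ℕ → (ℕ → Fin b) → ℝ) (J : ℕ) (ω : ℤ → Fin b) : ℂ :=
  G J (past (sh (J : ℤ) ω)) * (e (ξ J (past (sh (J : ℤ) ω)) * val (fut (sh (J : ℤ) ω))) -
      cf P (past (sh (J : ℤ) ω)) (ξ J (past (sh (J : ℤ) ω))))

lemma Dd_eq (P : Measure (ℤ → Fin b)) [IsFiniteMeasure P] (j : (ℤ → Fin b) → ℕ)
    (G : ℕ → (ℕ → Fin b) → ℂ) (ξ : ℕ → (ℕ → Fin b) → ℝ) (ω : ℤ → Fin b) :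
    Dd P j G ξ ω = DJ P G ξ (j ω) ω := rfl

lemma DJ_norm (P : Measure (ℤ → Fin b)) [IsFiniteMeasure P] (G : ℕ → (ℕ → Fin b) → ℂ)
    (ξ : ℕ → (ℕ → Fin b) → ℝ) (hG : ∀ J π, ‖G J π‖ ≤ 1) (J : ℕ) (ω : ℤ → Fin b) : ‖DJ P G ξ J ω‖ ≤ 2 := by
  unfold DJ
  rw [norm_mul]
  have h1 := hG J (past (sh (J : ℤ) ω))
  have h2 : ‖e (ξ J (past (sh (J : ℤ) ω)) * val (fut (sh (J : ℤ) ω))) -
      cf P (past (sh (J : ℤ) ω)) (ξ J (past (sh (J : ℤ) ω)))‖ ≤ 2 := by
    refine (norm_sub_le _ _).trans ?_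
    have := cf_norm P (past (sh (J : ℤ) ω)) (ξ J (past (sh (J : ℤ) ω)))
    rw [norm_e]
    linarith
  nlinarith [norm_nonneg (G J (past (sh (J : ℤ) ω)))]

lemma DJ_meas (hb : 2 ≤ b) (P : Measure (ℤ → Fin b)) [IsFiniteMeasure P] (G : ℕ → (ℕ → Fin b) → ℂ)
    (ξ : ℕ → (ℕ → Fin b) → ℝ) (hG : ∀ J, Measurable (G J)) (hξ : ∀ J, Measurable (ξ J)) (J : ℕ) :
    Measurable (DJ P G ξ J) := by
  have hp : Measurable fun ω : ℤ → Fin b => past (sh (J : ℤ) ω) := past_meas.comp (sh_meas _)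
  have hf : Measurable fun ω : ℤ → Fin b => fut (sh (J : ℤ) ω) := fut_meas.comp (sh_meas _)
  unfold DJ
  exact ((hG J).comp hp).mul ((e_cont.measurable.comp (((hξ J).comp hp).mul ((val_meas hb).comp hf))).sub
    ((cf_meas hb P (ξ J) (hξ J)).comp hp))

lemma Stop.meas {j : (ℤ → Fin b) → ℕ} (hj : Stop j) : Measurable j := by
  obtain ⟨⟨A, hA, h⟩, -⟩ := hj
  refine measurable_to_countable' fun J => ?_
  have : j ⁻¹' {J} = (fun ω : ℤ → Fin b => past (sh (J : ℤ) ω)) ⁻¹' (A J) := by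
    ext ω
    exact h ω J
  rw [this]
  exact (past_meas.comp (sh_meas _)) (hA J)

lemma meas_sel {α β : Type*} [MeasurableSpace α] [MeasurableSpace β] (f : ℕ → α → β) (hf : ∀ J, Measurable (f J))
    (j : α → ℕ) (hj : Measurable j) : Measurable (fun ω => f (j ω) ω) := by
  have h1 : Measurable (fun p : ℕ × α => f p.1 p.2) := measurable_from_prod_countable_right hf
  exact h1.comp (hj.prodMk measurable_id)

lemma Dd_meas (hb : 2 ≤ b) (P : Measure (ℤ → Fin b)) [IsFiniteMeasure P] (j : (ℤ → Fin b) → ℕ)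
    (hj : Stop j) (G : ℕ → (ℕ → Fin b) → ℂ) (ξ : ℕ → (ℕ → Fin b) → ℝ) (hG : ∀ J, Measurable (G J))
    (hξ : ∀ J, Measurable (ξ J)) : Measurable (Dd P j G ξ) :=
  meas_sel (DJ P G ξ) (DJ_meas hb P G ξ hG hξ) j (Stop.meas hj)

lemma Dd_norm (P : Measure (ℤ → Fin b)) [IsFiniteMeasure P] (j : (ℤ → Fin b) → ℕ)
    (G : ℕ → (ℕ → Fin b) → ℂ) (ξ : ℕ → (ℕ → Fin b) → ℝ) (hG : ∀ J π, ‖G J π‖ ≤ 1) (ω : ℤ → Fin b) :
    ‖Dd P j G ξ ω‖ ≤ 2 := DJ_norm P G ξ hG (j ω) ω

/-! ### orthogonality -/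

lemma orth2 (hb : 2 ≤ b) (P : Measure (ℤ → Fin b)) [IsProbabilityMeasure P] (H : (ℕ → Fin b) → ℂ) (ξ : (ℕ → Fin b) → ℝ)
    (hH : Measurable H) (hξ : Measurable ξ) (C : ℝ) (hHb : ∀ π, ‖H π‖ ≤ C) :
    ∫ ω, H (past ω) * (e (ξ (past ω) * val (fut ω)) - cf P (past ω) (ξ (past ω))) ∂P = 0 := by
  have hC : 0 ≤ C := (norm_nonneg _).trans (hHb (fun _ => 0))
  have hm : StronglyMeasurable (fun p : (ℕ → Fin b) × (ℕ → Fin b) => H p.1 * e (ξ p.1 * val p.2)) :=
    ((hH.comp measurable_fst).mul (e_cont.measurable.comp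
      ((hξ.comp measurable_fst).mul ((val_meas hb).comp measurable_snd)))).stronglyMeasurable
  have hint : Integrable (fun ω : ℤ → Fin b =>
      (fun p : (ℕ → Fin b) × (ℕ → Fin b) => H p.1 * e (ξ p.1 * val p.2)) (past ω, fut ω)) P := by
    refine Integrable.of_bound (C := C) ?_ (Eventually.of_forall fun ω => ?_)
    · exact (hm.measurable.comp (past_meas.prodMk fut_meas)).aestronglyMeasurable
    · rw [norm_mul, norm_e, mul_one]
      exact hHb _
  have h1 := condExp_prod_ae_eq_integral_condDistrib (past_meas (b := b)) (fut_meas (b := b)).aemeasurable hm hint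
  have h2 := integral_condExp (μ := P) (m := MeasurableSpace.comap (past (b := b)) inferInstance)
    (past_meas (b := b)).comap_le (f := fun ω : ℤ → Fin b => H (past ω) * e (ξ (past ω) * val (fut ω)))
  have i1 : Integrable (fun ω : ℤ → Fin b => H (past ω) * e (ξ (past ω) * val (fut ω))) P := hint
  have i2 : Integrable (fun ω : ℤ → Fin b => H (past ω) * cf P (past ω) (ξ (past ω))) P := by
    refine Integrable.of_bound (C := C) ((hH.comp past_meas).mul
      ((cf_meas hb P ξ hξ).comp past_meas)).aestronglyMeasurable (Eventually.of_forall fun ω => ?_)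
    rw [norm_mul]
    have := cf_norm P (past ω) (ξ (past ω))
    have h3 := hHb (past ω)
    nlinarith [norm_nonneg (H (past ω)), norm_nonneg (cf P (past ω) (ξ (past ω)))]
  simp only [mul_sub]
  rw [integral_sub i1 i2, ← h2, integral_congr_ae h1, sub_eq_zero]
  refine integral_congr_ae (Eventually.of_forall fun ω => ?_)
  simp only
  rw [integral_const_mul]
  rfl

lemma int_sh {α : Type*} [MeasurableSpace α] {P : Measure α} {T : α → α} (hT : MeasurePreserving T P P)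
    (g : α → ℂ) (hg : Measurable g) : ∫ ω, g (T ω) ∂P = ∫ ω, g ω ∂P := by
  have h := integral_map (μ := P) (φ := T) hT.measurable.aemeasurable (f := g) hg.aestronglyMeasurable
  rw [hT.map_eq] at h
  exact h.symm

lemma orth3 (hb : 2 ≤ b) (P : Measure (ℤ → Fin b)) [IsProbabilityMeasure P]
    (hP : MeasurePreserving (sh (b := b) 1) P P) (G : ℕ → (ℕ → Fin b) → ℂ)
    (ξ : ℕ → (ℕ → Fin b) → ℝ) (hG : ∀ J, Measurable (G J)) (hξ : ∀ J, Measurable (ξ J))
    (hGb : ∀ J π, ‖G J π‖ ≤ 1) (J : ℕ) (H : (ℕ → Fin b) → ℂ) (hH : Measurable H) (C : ℝ) (hHb : ∀ π, ‖H π‖ ≤ C) :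
    ∫ ω, H (past (sh (J : ℤ) ω)) * (starRingEnd ℂ) (DJ P G ξ J ω) ∂P = 0 := by
  have hC : 0 ≤ C := (norm_nonneg _).trans (hHb (fun _ => 0))
  have hconj : Measurable (starRingEnd ℂ) := Complex.continuous_conj.measurable
  have hmp := sh_mp P hP J
  have h0 := orth2 hb P (fun π => (starRingEnd ℂ) (H π) * G J π) (ξ J) ((hconj.comp hH).mul (hG J)) (hξ J) C
    (fun π => by
      rw [norm_mul, RCLike.norm_conj]
      have h1 := hHb π
      have h2 := hGb J π
      nlinarith [norm_nonneg (H π), norm_nonneg (G J π)])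
  have h1 : ∫ ω, H (past (sh (J : ℤ) ω)) * (starRingEnd ℂ) (DJ P G ξ J ω) ∂P =
      ∫ ω, H (past ω) * (starRingEnd ℂ) (G J (past ω) * (e (ξ J (past ω) * val (fut ω)) -
        cf P (past ω) (ξ J (past ω)))) ∂P :=
    int_sh hmp (fun ω : ℤ → Fin b => H (past ω) * (starRingEnd ℂ) (G J (past ω) * (e (ξ J (past ω) * val (fut ω)) -
        cf P (past ω) (ξ J (past ω))))) ((hH.comp past_meas).mul (hconj.comp (((hG J).comp past_meas).mul
        ((e_cont.measurable.comp (((hξ J).comp past_meas).mul ((val_meas hb).comp fut_meas))).sub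
        ((cf_meas hb P (ξ J) (hξ J)).comp past_meas)))))
  rw [h1]
  have h2 : ∫ ω, H (past ω) * (starRingEnd ℂ) (G J (past ω) * (e (ξ J (past ω) * val (fut ω)) -
        cf P (past ω) (ξ J (past ω)))) ∂P = (starRingEnd ℂ) (∫ ω, (starRingEnd ℂ) (H (past ω)) * G J (past ω) *
        (e (ξ J (past ω) * val (fut ω)) - cf P (past ω) (ξ J (past ω))) ∂P) := by
    rw [← integral_conj]
    refine integral_congr_ae (Eventually.of_forall fun ω => ?_)
    simp only [map_mul, Complex.conj_conj]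
    ring
  rw [h2, h0, map_zero]

end Pool.Agent.T3h64.HK
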