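import Pool.Agent.T3h64.HK.Com

/-! Lemmas for RED of project HK. -/

set_option autoImplicit false

namespace Pool.Agent.T3h64.HK

open MeasureTheory ProbabilityTheory Filter Topology Finset
open Pool.Agent.T3H29.HR Pool.Agent.T3H29.HK

section
variable {b : ℕ}

/-! ### the first digits -/

/-- the number with the first `m` digits -/
noncomputable def xx (m : ℕ) (ω : ℤ → Fin b) : ℝ := qq m (past (sh (m : ℤ) ω))

lemma qq_nonneg (j : ℕ) (π : ℕ → Fin b) : 0 ≤ qq j π := by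
  unfold qq
  exact sum_nonneg fun i _ => by positivity

lemma xx_nonneg (m : ℕ) (ω : ℤ → Fin b) : 0 ≤ xx m ω := qq_nonneg _ _

lemma xx_split (hb : 2 ≤ b) (j : ℕ) (ω : ℤ → Fin b) :
    val (fut ω) = xx j ω + val (fut (sh (j : ℤ) ω)) / (b : ℝ) ^ j := val_split hb j ω

lemma xx_le (hb : 2 ≤ b) (j : ℕ) (ω : ℤ → Fin b) : xx j ω ≤ val (fut ω) := by
  rw [xx_split hb j ω]
  have := val_nonneg (fut (sh (j : ℤ) ω))
  have h2 : 0 ≤ val (fut (sh (j : ℤ) ω)) / (b : ℝ) ^ j := by positivity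
  linarith

lemma le_xx_add (hb : 2 ≤ b) (j : ℕ) (ω : ℤ → Fin b) : val (fut ω) ≤ xx j ω + 1 / (b : ℝ) ^ j := by
  rw [xx_split hb j ω]
  have := val_le_one hb (fut (sh (j : ℤ) ω))
  have h2 : val (fut (sh (j : ℤ) ω)) / (b : ℝ) ^ j ≤ 1 / (b : ℝ) ^ j := by
    exact div_le_div_of_nonneg_right this (by positivity)
  linarith

lemma xx_mono (hb : 2 ≤ b) (i j : ℕ) (h : i ≤ j) (ω : ℤ → Fin b) : xx i ω ≤ xx j ω := by
  have h1 := xx_split hb i ω
  have h2 := xx_split hb j ω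
  have h3 := val_split hb (j - i) (sh (i : ℤ) ω)
  rw [sh_comp] at h3
  have h4 : (((j - i : ℕ)) : ℤ) + (i : ℤ) = (j : ℤ) := by omega
  rw [h4] at h3
  have hb0 : (0 : ℝ) < b := by exact_mod_cast (by omega : 0 < b)
  have h5 : (b : ℝ) ^ j = (b : ℝ) ^ (j - i) * (b : ℝ) ^ i := by
    rw [← pow_add]; congr 1; omega
  rw [h3, add_div, div_div, ← h5] at h1
  have h6 : 0 ≤ qq (j - i) (past (sh (j : ℤ) ω)) / (b : ℝ) ^ i := by
    have := qq_nonneg (j - i) (past (sh (j : ℤ) ω))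
    positivity
  linarith

lemma xx_mem (hb : 2 ≤ b) (j : ℕ) (ω : ℤ → Fin b) : xx j ω ∈ Set.Icc (0 : ℝ) 1 :=
  ⟨xx_nonneg j ω, (xx_le hb j ω).trans (val_le_one hb _)⟩

/-- the number with the first `m` digits, read off at the place `J` -/
noncomputable def xs (m J : ℕ) (π : ℕ → Fin b) : ℝ := qq m (fun i => π (i + (J - m)))

lemma xs_meas (m J : ℕ) : Measurable (xs (b := b) m J) := by
  unfold xs
  exact (qq_meas m).comp (measurable_pi_lambda _ fun i => measurable_pi_apply _)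

lemma xs_eq (m J : ℕ) (h : m ≤ J) (ω : ℤ → Fin b) : xs m J (past (sh (J : ℤ) ω)) = xx m ω := by
  unfold xs xx
  rw [past_sh m J h]

/-! ### real analysis -/

lemma log_lin (hb : 2 ≤ b) (a ε : ℝ) (ha : 0 ≤ a) (hε : 0 < ε) :
    ∃ C : ℝ, 0 ≤ C ∧ ∀ k : ℕ, a * Real.logb b (1 + k) ≤ ε * k + C := by
  have hL : 0 < Real.log b := Real.log_pos (by exact_mod_cast (by omega : 1 < b))
  set L := Real.log b with hLdef
  set δ : ℝ := ε * L / (a + 1) with hδ
  have ha1 : 0 < a + 1 := by linarith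
  have hδ0 : 0 < δ := by positivity
  refine ⟨ε + a / L * |Real.log δ|, by positivity, fun k => ?_⟩
  have hk : (0 : ℝ) < 1 + k := by positivity
  have h1 : Real.log (1 + k) ≤ δ * (1 + k) + |Real.log δ| := by
    have h2 : Real.log (δ * (1 + k)) = Real.log δ + Real.log (1 + k) := Real.log_mul hδ0.ne' hk.ne'
    have h3 := Real.log_le_sub_one_of_pos (mul_pos hδ0 hk)
    have h4 := neg_abs_le (Real.log δ)
    linarith
  have h5 : a * Real.logb b (1 + k) = a / L * Real.log (1 + k) := by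
    unfold Real.logb
    ring
  rw [h5]
  have h6 : a / L * δ ≤ ε := by
    rw [hδ, div_mul_div_comm, div_le_iff₀ (by positivity)]
    have : 0 ≤ ε * L := by positivity
    nlinarith
  calc a / L * Real.log (1 + k) ≤ a / L * (δ * (1 + k) + |Real.log δ|) :=
        mul_le_mul_of_nonneg_left h1 (by positivity)
    _ = (a / L * δ) * (1 + k) + a / L * |Real.log δ| := by ring
    _ ≤ ε * (1 + k) + a / L * |Real.log δ| := by
        have := mul_le_mul_of_nonneg_right h6 hk.le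
        linarith
    _ = _ := by ring

/-- the number of digits used for the exponent -/
noncomputable def mm (c : ℝ) (n : ℕ) : ℕ := ⌊c / 2 * n⌋₊

lemma mm_le (c : ℝ) (hc : 0 < c) (n : ℕ) : (mm c n : ℝ) ≤ c / 2 * n := Nat.floor_le (by positivity)

lemma lt_mm (c : ℝ) (n : ℕ) : c / 2 * n - 1 < mm c n := by
  have := Nat.lt_floor_add_one (c / 2 * n)
  unfold mm
  linarith

lemma mm_mono (c : ℝ) (hc : 0 < c) (m n : ℕ) (h : m ≤ n) : mm c m ≤ mm c n := by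
  unfold mm
  refine Nat.floor_le_floor ?_
  have : (m : ℝ) ≤ n := by exact_mod_cast h
  nlinarith

lemma mm_bound (hb : 2 ≤ b) (c : ℝ) (n : ℕ) : 1 / (b : ℝ) ^ mm c n ≤ b * ((b : ℝ) ^ (-(c / 2))) ^ n := by
  have hb1 : (1 : ℝ) < b := by exact_mod_cast (by omega : 1 < b)
  have hb0 : (0 : ℝ) < b := by linarith
  rw [one_div, ← Real.rpow_natCast, ← Real.rpow_neg hb0.le, ← Real.rpow_natCast, ← Real.rpow_mul hb0.le]
  nth_rewrite 2 [← Real.rpow_one (b : ℝ)]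
  rw [← Real.rpow_add hb0]
  refine Real.rpow_le_rpow_of_exponent_le hb1.le ?_
  have := lt_mm c n
  linarith

lemma tendsto_mm (hb : 2 ≤ b) (c : ℝ) (hc : 0 < c) :
    Tendsto (fun n : ℕ => 1 / (b : ℝ) ^ mm c n) atTop (𝓝 0) ∧
    Tendsto (fun n : ℕ => (n : ℝ) * (1 / (b : ℝ) ^ mm c n)) atTop (𝓝 0) := by
  have hb1 : (1 : ℝ) < b := by exact_mod_cast (by omega : 1 < b)
  have hb0 : (0 : ℝ) < b := by linarith
  set r : ℝ := (b : ℝ) ^ (-(c / 2)) with hr
  have hr0 : 0 < r := Real.rpow_pos_of_pos hb0 _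
  have hr1 : r < 1 := Real.rpow_lt_one_of_one_lt_of_neg hb1 (by linarith)
  have h1 : Tendsto (fun n : ℕ => (b : ℝ) * r ^ n) atTop (𝓝 0) := by
    have := (tendsto_pow_atTop_nhds_zero_of_lt_one hr0.le hr1).const_mul (b : ℝ)
    rwa [mul_zero] at this
  have h2 : Tendsto (fun n : ℕ => (b : ℝ) * (n * r ^ n)) atTop (𝓝 0) := by
    have := (tendsto_self_mul_const_pow_of_lt_one hr0.le hr1).const_mul (b : ℝ)
    rwa [mul_zero] at this
  refine ⟨squeeze_zero (fun n => by positivity) (fun n => mm_bound hb c n) h1,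
    squeeze_zero (fun n => by positivity) (fun n => ?_) h2⟩
  have := mul_le_mul_of_nonneg_left (mm_bound hb c n) (by positivity : (0 : ℝ) ≤ n)
  refine this.trans (le_of_eq ?_)
  rw [← hr]
  ring

section VV
variable (θ s : ℝ → ℝ) (Λ c τ : ℝ)

lemma lam_nonneg (hθ : ∀ x y, |θ x - θ y| ≤ Λ * |x - y|) : 0 ≤ Λ := by
  have := hθ 1 0
  norm_num at this
  exact (abs_nonneg _).trans this

lemma th_cont (hθ : ∀ x y, |θ x - θ y| ≤ Λ * |x - y|) : Continuous θ := by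
  have hΛ := lam_nonneg θ Λ hθ
  refine (LipschitzWith.of_dist_le_mul (K := ⟨Λ, hΛ⟩) fun x y => ?_).continuous
  rw [Real.dist_eq, Real.dist_eq]
  exact hθ x y

lemma VV_cont (hθ : ∀ x y, |θ x - θ y| ≤ Λ * |x - y|) (hs : Continuous s) (n : ℕ) :
    Continuous (VV b θ s τ n) := by
  have := th_cont θ Λ hθ
  unfold VV
  fun_prop

lemma VV_close (hb : 2 ≤ b) (hθ : ∀ x y, |θ x - θ y| ≤ Λ * |x - y|) (hs : Continuous s) (hc : 0 < c) (ε : ℝ) (hε : 0 < ε) :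
    ∃ n₂ : ℕ, ∀ n, n₂ ≤ n → ∀ x ∈ Set.Icc (0 : ℝ) 1, ∀ y ∈ Set.Icc (0 : ℝ) 1, |x - y| ≤ 1 / (b : ℝ) ^ mm c n →
      |VV b θ s τ n x - VV b θ s τ n y| ≤ ε := by
  have hΛ := lam_nonneg θ Λ hθ
  have huc := isCompact_Icc.uniformContinuousOn_of_continuous (s := Set.Icc (0 : ℝ) 1) hs.continuousOn
  rw [Metric.uniformContinuousOn_iff] at huc
  obtain ⟨d, hd, hd2⟩ := huc (ε / 2) (half_pos hε)
  obtain ⟨t1, t2⟩ := tendsto_mm (b := b) hb c hc
  have e1 : ∀ᶠ n : ℕ in atTop, 1 / (b : ℝ) ^ mm c n < d := t1.eventually (gt_mem_nhds hd)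
  have t3 := t2.const_mul Λ
  rw [mul_zero] at t3
  have e2 : ∀ᶠ n : ℕ in atTop, Λ * ((n : ℝ) * (1 / (b : ℝ) ^ mm c n)) < ε / 2 := t3.eventually (gt_mem_nhds (half_pos hε))
  obtain ⟨n₂, hn₂⟩ := eventually_atTop.1 (e1.and e2)
  refine ⟨n₂, fun n hn x hx y hy hxy => ?_⟩
  obtain ⟨h1, h2⟩ := hn₂ n hn
  have h3 := hd2 x hx y hy (by rw [Real.dist_eq]; linarith)
  rw [Real.dist_eq] at h3
  have h4 : VV b θ s τ n x - VV b θ s τ n y = n * (θ x - θ y) + (s x - s y) := by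
    unfold VV; ring
  rw [h4]
  refine (abs_add_le _ _).trans ?_
  rw [abs_mul, Nat.abs_cast]
  have h5 := hθ x y
  have h6 : (n : ℝ) * |θ x - θ y| ≤ Λ * ((n : ℝ) * (1 / (b : ℝ) ^ mm c n)) := by
    have h7 : |θ x - θ y| ≤ Λ * (1 / (b : ℝ) ^ mm c n) := h5.trans (mul_le_mul_of_nonneg_left hxy hΛ)
    calc (n : ℝ) * |θ x - θ y| ≤ n * (Λ * (1 / (b : ℝ) ^ mm c n)) := mul_le_mul_of_nonneg_left h7 (by positivity)
      _ = _ := by ring
  linarith

end VV

end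

end Pool.Agent.T3h64.HK
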