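import Pool.Agent.T3h64.HK.Red

/-! Lemmas for RED of project HK, part 2: the stopping indices. -/

set_option autoImplicit false

namespace Pool.Agent.T3h64.HK

open MeasureTheory ProbabilityTheory Filter Topology Finset
open Pool.Agent.T3H29.HR Pool.Agent.T3H29.HK

variable {b : ℕ}

/-- the exponent, from the first `mm c n` digits -/
noncomputable def WW (θ s : ℝ → ℝ) (c τ : ℝ) (n : ℕ) (ω : ℤ → Fin b) : ℝ := VV b θ s τ n (xx (mm c n) ω)

/-- the exponent, read off at the place `J` -/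
noncomputable def WJ (θ s : ℝ → ℝ) (c τ : ℝ) (n J : ℕ) (π : ℕ → Fin b) : ℝ := VV b θ s τ n (xs (mm c n) J π)

lemma WJ_eq (θ s : ℝ → ℝ) (c τ : ℝ) (n J : ℕ) (h : mm c n ≤ J) (ω : ℤ → Fin b) :
    WJ θ s c τ n J (past (sh (J : ℤ) ω)) = WW θ s c τ n ω := by
  unfold WJ WW
  rw [xs_eq _ _ h]

lemma WJ_meas (θ s : ℝ → ℝ) (Λ c τ : ℝ) (hθ : ∀ x y, |θ x - θ y| ≤ Λ * |x - y|) (hs : Continuous s) (n J : ℕ) :
    Measurable (WJ (b := b) θ s c τ n J) :=
  (VV_cont θ s Λ τ hθ hs n).measurable.comp (xs_meas _ _)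

/-- the stopping index -/
noncomputable def jj (θ s : ℝ → ℝ) (c τ : ℝ) (K n : ℕ) (ω : ℤ → Fin b) : ℕ :=
  max (mm c n) (⌊WW θ s c τ n ω⌋ - K).toNat

lemma VV_bdd (hb : 2 ≤ b) (θ s : ℝ → ℝ) (Λ c τ : ℝ) (hθ : ∀ x y, |θ x - θ y| ≤ Λ * |x - y|) (hs : Continuous s) (n : ℕ) :
    ∃ M : ℝ, ∀ ω : ℤ → Fin b, WW θ s c τ n ω ≤ M := by
  obtain ⟨M, hM⟩ := isCompact_Icc.exists_bound_of_continuousOn (s := Set.Icc (0 : ℝ) 1)
    (VV_cont (b := b) θ s Λ τ hθ hs n).continuousOn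
  refine ⟨M, fun ω => ?_⟩
  have := hM _ (xx_mem hb (mm c n) ω)
  exact (le_abs_self _).trans this

lemma jj_stop (hb : 2 ≤ b) (θ s : ℝ → ℝ) (Λ c τ : ℝ) (hθ : ∀ x y, |θ x - θ y| ≤ Λ * |x - y|) (hs : Continuous s) (K n : ℕ) :
    Stop (jj (b := b) θ s c τ K n) := by
  refine ⟨⟨fun J => {π | mm c n ≤ J ∧ max (mm c n) (⌊WJ θ s c τ n J π⌋ - K).toNat = J}, fun J => ?_, fun ω J => ?_⟩, ?_⟩
  · have h1 : Measurable fun π : ℕ → Fin b => max (mm c n) (⌊WJ θ s c τ n J π⌋ - K).toNat := by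
      have h2 : Measurable fun π : ℕ → Fin b => ⌊WJ θ s c τ n J π⌋ :=
        Int.measurable_floor.comp (WJ_meas θ s Λ c τ hθ hs n J)
      have h3 : Measurable fun z : ℤ => max (mm c n) (z - K).toNat := measurable_of_countable _
      exact h3.comp h2
    by_cases h : mm c n ≤ J
    · simp only [h, true_and]
      exact h1 (measurableSet_singleton J)
    · simp only [h, false_and, Set.ofPred_false]
      exact MeasurableSet.empty
  · simp only [Set.mem_ofPred_eq]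
    constructor
    · intro h
      have h1 : mm c n ≤ J := by rw [← h]; exact le_max_left _ _
      refine ⟨h1, ?_⟩
      rw [WJ_eq _ _ _ _ _ _ h1]
      exact h
    · rintro ⟨h1, h2⟩
      rw [WJ_eq _ _ _ _ _ _ h1] at h2
      exact h2
  · obtain ⟨M, hM⟩ := VV_bdd (b := b) hb θ s Λ c τ hθ hs n
    refine ⟨max (mm c n) ⌊M⌋.toNat, fun ω => ?_⟩
    unfold jj
    have h1 := Int.floor_le_floor (hM ω)
    omega

/-- the threshold -/
lemma exists_thr (hb : 2 ≤ b) (θ s : ℝ → ℝ) (c τ : ℝ) (hs : Continuous s) (hc : 0 < c) (hcθ : ∀ x, c ≤ θ x) (K : ℕ) :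
    ∃ n₁ : ℕ, 1 ≤ n₁ ∧ ∀ n, n₁ ≤ n → ∀ ω : ℤ → Fin b, (mm c n : ℤ) ≤ ⌊WW θ s c τ n ω⌋ - K := by
  obtain ⟨S, hS⟩ := isCompact_Icc.exists_bound_of_continuousOn (s := Set.Icc (0 : ℝ) 1) hs.continuousOn
  obtain ⟨C, hC0, hC⟩ := log_lin (b := b) hb |τ| (c / 4) (abs_nonneg _) (by positivity)
  obtain ⟨N, hN⟩ := exists_nat_gt (4 * (C + S + K) / c)
  have hb1 : (1 : ℝ) < b := by exact_mod_cast (by omega : 1 < b)
  refine ⟨max 1 N, le_max_left _ _, fun n hn ω => ?_⟩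
  have hn1 : (1 : ℝ) ≤ n := by exact_mod_cast (le_trans (le_max_left _ _) hn)
  have hnN : (N : ℝ) ≤ n := by exact_mod_cast (le_trans (le_max_right _ _) hn)
  rw [div_lt_iff₀ hc] at hN
  have h1 : 4 * (C + S + K) ≤ n * c := by nlinarith
  have h2 := hC n
  have h3 : Real.logb b n ≤ Real.logb b (1 + n) := Real.logb_le_logb_of_le hb1 (by linarith) (by linarith)
  have h4 : 0 ≤ Real.logb b n := Real.logb_nonneg hb1 hn1
  have h5 : -(|τ| * Real.logb b (1 + n)) ≤ τ * Real.logb b n := by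
    have h6 := neg_abs_le τ
    have h7 := abs_nonneg τ
    nlinarith
  have h8 := hS _ (xx_mem hb (mm c n) ω)
  rw [Real.norm_eq_abs] at h8
  have h9 := neg_abs_le (s (xx (mm c n) ω))
  have h10 := hcθ (xx (mm c n) ω)
  have h11 := mm_le c hc n
  rw [le_sub_iff_add_le, Int.le_floor]
  push_cast
  unfold WW VV
  nlinarith

/-- the stopping indices grow at least linearly -/
lemma jj_growth (hb : 2 ≤ b) (θ s : ℝ → ℝ) (Λ c τ : ℝ) (hθ : ∀ x y, |θ x - θ y| ≤ Λ * |x - y|) (hs : Continuous s)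
    (hc : 0 < c) (hcθ : ∀ x, c ≤ θ x) (K : ℕ) :
    ∃ C : ℝ, ∀ (m n : ℕ) (ω : ℤ → Fin b), m ≤ n →
      c / 2 * ((n : ℝ) - m) - C ≤ (jj θ s c τ K n ω : ℝ) - jj θ s c τ K m ω := by
  obtain ⟨n₁, hn₁, hthr⟩ := exists_thr (b := b) hb θ s c τ hs hc hcθ K
  obtain ⟨S, hS⟩ := isCompact_Icc.exists_bound_of_continuousOn (s := Set.Icc (0 : ℝ) 1) hs.continuousOn
  obtain ⟨C₁, hC₁0, hC₁⟩ := log_lin (b := b) hb |τ| (c / 2) (abs_nonneg _) (by positivity)
  have hΛ := lam_nonneg θ Λ hθ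
  have hb1 : (1 : ℝ) < b := by exact_mod_cast (by omega : 1 < b)
  have hb0 : (0 : ℝ) < b := by linarith
  obtain ⟨C₂, hC₂⟩ := (tendsto_mm (b := b) hb c hc).2.bddAbove_range
  have hC₂' : ∀ n : ℕ, (n : ℝ) * (1 / (b : ℝ) ^ mm c n) ≤ C₂ := fun n => hC₂ ⟨n, rfl⟩
  have hC₂0 : 0 ≤ C₂ := by have := hC₂' 0; simpa using this
  -- bound of the first indices
  choose M hM using fun n => (jj_stop (b := b) hb θ s Λ c τ hθ hs K n).2
  set C₃ : ℝ := ∑ m ∈ range n₁, (M m : ℝ) with hC₃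
  have hC₃' : ∀ m, m < n₁ → ∀ ω, (jj (b := b) θ s c τ K m ω : ℝ) ≤ C₃ := by
    intro m hm ω
    have h1 : (jj (b := b) θ s c τ K m ω : ℝ) ≤ M m := by exact_mod_cast hM m ω
    refine h1.trans ?_
    exact single_le_sum (f := fun m => (M m : ℝ)) (fun i _ => by positivity) (mem_range.2 hm)
  have hC₃0 : 0 ≤ C₃ := sum_nonneg fun i _ => by positivity
  have hS0 : 0 ≤ S := (norm_nonneg _).trans (hS 0 (by simp))
  refine ⟨C₃ + 1 + (Λ * C₂ + C₁ + 2 * S), fun m n ω hmn => ?_⟩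
  have hmnr : (m : ℝ) ≤ n := by exact_mod_cast hmn
  rcases lt_or_ge m n₁ with h | h
  · have h1 := hC₃' m h ω
    have h2 : (mm c n : ℝ) ≤ jj θ s c τ K n ω := by exact_mod_cast le_max_left _ _
    have h3 := lt_mm c n
    have h4 : 0 ≤ Λ * C₂ := by positivity
    have h5 : (0 : ℝ) ≤ m := by positivity
    nlinarith
  · have hm1 : (1 : ℝ) ≤ m := by exact_mod_cast (hn₁.trans h)
    have hjm : (jj θ s c τ K m ω : ℝ) ≤ WW θ s c τ m ω - K := by
      have h1 := hthr m h ω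
      have h2 : ((jj θ s c τ K m ω : ℕ) : ℤ) = ⌊WW θ s c τ m ω⌋ - K := by
        unfold jj
        omega
      have h3 : ((jj θ s c τ K m ω : ℕ) : ℝ) = (⌊WW θ s c τ m ω⌋ : ℝ) - K := by exact_mod_cast h2
      rw [h3]
      have := Int.floor_le (WW θ s c τ m ω)
      linarith
    have hjn : WW θ s c τ n ω - K - 1 ≤ (jj θ s c τ K n ω : ℝ) := by
      have h2 : ⌊WW θ s c τ n ω⌋ - K ≤ ((jj θ s c τ K n ω : ℕ) : ℤ) := by
        unfold jj
        omega
      have h3 : (⌊WW θ s c τ n ω⌋ : ℝ) - K ≤ ((jj θ s c τ K n ω : ℕ) : ℝ) := by exact_mod_cast h2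
      have := Int.lt_floor_add_one (WW θ s c τ n ω)
      linarith
    -- the difference of the exponents
    have hx1 := xx_mono hb (mm c m) (mm c n) (mm_mono c hc m n hmn) ω
    have hx2 : xx (mm c n) ω ≤ xx (mm c m) ω + 1 / (b : ℝ) ^ mm c m :=
      (xx_le hb _ ω).trans (le_xx_add hb _ ω)
    have hd : |θ (xx (mm c n) ω) - θ (xx (mm c m) ω)| ≤ Λ * (1 / (b : ℝ) ^ mm c m) := by
      refine (hθ _ _).trans (mul_le_mul_of_nonneg_left ?_ hΛ)
      rw [abs_of_nonneg (by linarith)]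
      linarith
    have hd2 : (m : ℝ) * |θ (xx (mm c n) ω) - θ (xx (mm c m) ω)| ≤ Λ * C₂ := by
      calc (m : ℝ) * |θ (xx (mm c n) ω) - θ (xx (mm c m) ω)| ≤ m * (Λ * (1 / (b : ℝ) ^ mm c m)) :=
            mul_le_mul_of_nonneg_left hd (by positivity)
        _ = Λ * ((m : ℝ) * (1 / (b : ℝ) ^ mm c m)) := by ring
        _ ≤ _ := mul_le_mul_of_nonneg_left (hC₂' m) hΛ
    have hs1 := hS _ (xx_mem hb (mm c n) ω)
    have hs2 := hS _ (xx_mem hb (mm c m) ω)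
    rw [Real.norm_eq_abs] at hs1 hs2
    have hs3 := neg_abs_le (s (xx (mm c n) ω))
    have hs4 := le_abs_self (s (xx (mm c m) ω))
    have hlog : -(c / 2 * ((n : ℝ) - m) + C₁) ≤ τ * Real.logb b n - τ * Real.logb b m := by
      have h1 := hC₁ (n - m)
      have h2 : (((n - m : ℕ)) : ℝ) = (n : ℝ) - m := by push_cast [hmn]; ring
      rw [h2] at h1
      have h3 : Real.logb b n - Real.logb b m ≤ Real.logb b (1 + ((n : ℝ) - m)) := by
        rw [← Real.logb_div (by linarith) (by linarith)]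
        refine Real.logb_le_logb_of_le hb1 (div_pos (by linarith) (by linarith)) ?_
        rw [div_le_iff₀ (by linarith)]
        nlinarith
      have h4 : 0 ≤ Real.logb b n - Real.logb b m := by
        have := Real.logb_le_logb_of_le hb1 (by linarith : (0 : ℝ) < m) hmnr
        linarith
      have h5 := neg_abs_le τ
      have h6 := abs_nonneg τ
      have h7 : -(|τ| * (Real.logb b n - Real.logb b m)) ≤ τ * (Real.logb b n - Real.logb b m) := by nlinarith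
      nlinarith
    have hab := neg_abs_le (θ (xx (mm c n) ω) - θ (xx (mm c m) ω))
    have hth := hcθ (xx (mm c n) ω)
    have hW : WW θ s c τ n ω - WW θ s c τ m ω = ((n : ℝ) - m) * θ (xx (mm c n) ω) +
        m * (θ (xx (mm c n) ω) - θ (xx (mm c m) ω)) + (τ * Real.logb b n - τ * Real.logb b m) +
        (s (xx (mm c n) ω) - s (xx (mm c m) ω)) := by
      unfold WW VV
      ring
    have hW1 : c * ((n : ℝ) - m) ≤ ((n : ℝ) - m) * θ (xx (mm c n) ω) := by nlinarith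
    have hW2 : -(Λ * C₂) ≤ m * (θ (xx (mm c n) ω) - θ (xx (mm c m) ω)) := by nlinarith
    linarith

end Pool.Agent.T3h64.HK
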